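import Pool.Agent.R781.WR.Forms

set_option autoImplicit false

/-!
# Two dense summands and `4 k` powers

Let `k ≥ 1` and `δ > 0`. Every large integer `n` is `a + b + x_1 ^ k + ... + x_{4k} ^ k` with
positive integers `x_i`, whenever `a` and `b` may be taken from sets which have at least `δ n`
elements below `n / 4`; and all the `x_i` but one can be taken bounded in terms of `k` and `δ`.
For `k = 2 ^ m` with `m ≥ 3` the number `4 k` cannot be lowered.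
-/

namespace Pool.Agent.Results.MP_ee77ae_nt.DenseSummands

open Filter

/-- `A` has positive lower density. -/
def PosDens (A : Set ℕ) : Prop :=
  ∃ δ : ℝ, 0 < δ ∧ ∀ᶠ N : ℕ in atTop, δ * N ≤ ((A ∩ Set.Iio N).ncard : ℝ)

/-- `n = a + b + x_1 ^ k + ... + x_t ^ k` with `a ∈ A`, `b ∈ B` and positive integers `x_i`, where
`x_i ≤ C` for `i ≥ 2`. -/
def Rep (k t C : ℕ) (A B : Set ℕ) (n : ℕ) : Prop :=
  ∃ a ∈ A, ∃ b ∈ B, ∃ x : Fin t → ℕ, (∀ i, 0 < x i) ∧ (∀ i, i.val ≠ 0 → x i ≤ C) ∧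
    a + b + ∑ i, x i ^ k = n

/-- **Two dense summands and exactly `4 k` positive `k`-th powers.** -/
theorem result (k : ℕ) (hk : 1 ≤ k) :
    -- the uniform theorem
    (∀ δ : ℝ, 0 < δ → ∃ C N : ℕ, ∀ n : ℕ, N ≤ n → ∀ A B : Set ℕ,
      δ * n ≤ ((A ∩ {a | 4 * a < n}).ncard : ℝ) → δ * n ≤ ((B ∩ {b | 4 * b < n}).ncard : ℝ) →
      Rep k (4 * k) C A B n) ∧
    -- its corollary for sets of positive lower density
    (∀ A B : Set ℕ, PosDens A → PosDens B → ∃ C N : ℕ, ∀ n : ℕ, N ≤ n → Rep k (4 * k) C A B n) ∧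
    -- fewer powers do not suffice for `k = 2 ^ m`, `m ≥ 3`, even if they are unbounded
    ((∃ m, 3 ≤ m ∧ k = 2 ^ m) → ∀ t < 4 * k, ∃ A : Set ℕ, PosDens A ∧
      ∃ᶠ n : ℕ in atTop, ¬ ∃ a ∈ A, ∃ b ∈ A, ∃ x : Fin t → ℕ, a + b + ∑ i, x i ^ k = n) := by
  have hloc : ∀ q, 1 ≤ q → R500.WB.Loc k (4 * k) q := fun q hq => R500.WB.Loc.four hk hq
  refine ⟨fun δ hδ => ?_, fun A B hA hB => ?_, ?_⟩
  · obtain ⟨C, hC⟩ := R781.WR.form_uniform hk (by omega) hloc hδ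
    obtain ⟨N, hN⟩ := eventually_atTop.1 hC
    refine ⟨C, N, fun n hn A B hA hB => ?_⟩
    obtain ⟨a, ha, b, hb, m, ⟨x, hx1, hx2, hx3⟩, h⟩ := hN n hn A B hA hB
    exact ⟨a, ha, b, hb, x, hx1, hx2, by rw [hx3]; exact h⟩
  · obtain ⟨C, hC⟩ := R781.WR.form_two hk (by omega) hloc hA hB
    obtain ⟨N, hN⟩ := eventually_atTop.1 hC
    refine ⟨C, N, fun n hn => ?_⟩
    obtain ⟨a, ha, b, hb, m, ⟨x, hx1, hx2, hx3⟩, h⟩ := hN n hn
    exact ⟨a, ha, b, hb, x, hx1, hx2, by rw [hx3]; exact h⟩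
  · rintro ⟨m, hm, hkm⟩ t ht
    by_contra hcon
    push Not at hcon
    exact R781.WR.not_suff hm hkm ht fun A hA => hcon A hA

end Pool.Agent.Results.MP_ee77ae_nt.DenseSummands
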