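import Pool.Agent.R532.Wa8

/-!
# Sums of `4 k` powers with generic real coefficients
-/

set_option autoImplicit false

namespace Pool.Agent.Results.MP_ee77ae_nt.GenericCoefficients

open MeasureTheory Filter

theorem result (k : ℕ) (hk : 1 ≤ k) :
    ∀ᵐ l : Fin (4 * k) → ℝ, (∀ i, 0 < l i) →
      ∀ ε : ℝ, 0 < ε → ∀ᶠ N : ℝ in atTop, ∃ x : Fin (4 * k) → ℕ, (∀ i, 0 < x i) ∧
        |∑ i, l i * (x i : ℝ) ^ k - N| ≤ N ^ (-1 + ε) := by
  filter_upwards [Pool.Agent.R532.Wa.generic_all k (4 * k) hk (by omega)] with l hl h0 ε hε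
  have hk0 : (k : ℝ) ≠ 0 := by
    have : k ≠ 0 := by omega
    exact_mod_cast this
  have h5 := hl h0 ε hε
  have h6 : 1 - ((4 * k : ℕ) : ℝ) / (2 * k) + ε = -1 + ε := by
    push_cast
    field_simp
    ring
  rw [h6] at h5
  exact h5

end Pool.Agent.Results.MP_ee77ae_nt.GenericCoefficients
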